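import Pool.Agent.Y223.G.Stm12
import Pool.Agent.Y31.H.Gvae

/-!
# Project G, wave 6: every valuation ring contains a chart (linear actions)
-/

set_option autoImplicit false

namespace Pool.Agent.Y794.H

open Pool.Agent.Y223.G
open Pool.Agent.Y515.G (ext_val int_mem)
open Pool.Agent.Y25.G (MN_mul MN_one MN_zero MN_z MN_succ FS_pow FS_mul FS_one)
open Pool.Agent.Y31.H (MN_split MN_div_pow ext_unit R2_coeff)

section forms

variable {O K : Type} [CommRing O] [Field K] [Algebra O K] {m : ℕ} (z : Fin (m + 1) → K)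

lemma FS_prod {I : Type} (s : Finset I) (f : I → K) (d : I → ℕ)
    (h : ∀ i ∈ s, f i ∈ FS O z (d i)) : ∏ i ∈ s, f i ∈ FS O z (∑ i ∈ s, d i) := by
  classical
  induction s using Finset.induction_on with
  | empty =>
    rw [Finset.prod_empty, Finset.sum_empty]
    exact FS_one z
  | insert a s ha ih =>
    rw [Finset.prod_insert ha, Finset.sum_insert ha]
    exact FS_mul z (h a (Finset.mem_insert_self a s))
      (ih fun i hi => h i (Finset.mem_insert_of_mem hi))

/-- A semilinear automorphism which acts linearly on the coordinates preserves the forms. -/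
lemma semi_FS (r : K →+* K) (t : O → O) (hrt : ∀ o, r (algebraMap O K o) = algebraMap O K (t o))
    (hr : ∀ j, r (z j) ∈ Submodule.span O (Set.range z)) (d : ℕ) {x : K} (hx : x ∈ FS O z d) :
    r x ∈ FS O z d := by
  have hz : ∀ j, r (z j) ∈ FS O z 1 := by
    intro j
    refine Submodule.span_mono ?_ (hr j)
    rintro _ ⟨i, rfl⟩
    exact MN_z z i
  unfold FS at hx
  induction hx using Submodule.span_induction with
  | mem x hx =>
    obtain ⟨a, ha, rfl⟩ := hx
    rw [map_prod]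
    have h1 := FS_prod (O := O) z Finset.univ (fun j => r (z j ^ a j)) a (by
      intro j _
      rw [map_pow]
      have h2 := FS_pow z (hz j) (a j)
      rwa [one_mul] at h2)
    rwa [ha] at h1
  | zero => rw [map_zero]; exact Submodule.zero_mem _
  | add x y _ _ hx hy => rw [map_add]; exact Submodule.add_mem _ hx hy
  | smul c x _ hx =>
    rw [Algebra.smul_def, map_mul, hrt, ← Algebra.smul_def]
    exact Submodule.smul_mem _ _ hx

end forms

/-- The products of forms which generate the monomials over a valuation ring. -/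
lemma MN_div_prod {K I : Type} [Field K] {m : ℕ} (z : Fin (m + 1) → K) (n : ℕ) (f : I → K)
    (V : ValuationSubring K) (h : ∀ i, ∀ y ∈ MN z n, y / f i ∈ V) (s : Finset I) :
    ∀ x ∈ MN z (n * s.card), x / ∏ i ∈ s, f i ∈ V := by
  classical
  induction s using Finset.induction_on with
  | empty =>
    intro x hx
    rw [Finset.card_empty, Nat.mul_zero] at hx
    rw [MN_zero z hx, Finset.prod_empty, div_one]
    exact V.one_mem
  | insert a s ha ih =>
    intro x hx
    rw [Finset.card_insert_of_notMem ha, Nat.mul_succ, Nat.add_comm] at hx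
    obtain ⟨y, hy, w, hw, rfl⟩ := MN_split z n (n * s.card) x hx
    rw [Finset.prod_insert ha, mul_div_mul_comm]
    exact V.mul_mem _ _ (h a y hy) (ih w hw)

theorem t_GVW : S_EXF → S_R2M → S_RWB → S_GVW := by
  classical
  intro hEXF _ _ k O M Y Y₂ K K₂ G Ω _ _ _ _ _ _ _ _ _ _ _ _ _ _ _ _ _ _ _ _ _ _ ι ι₂ εY ε ρ ρ₂
    HE T m z H
  obtain ⟨e⟩ : Nonempty (Fin (Nat.card G - 1 + 1) ≃ G) := by
    have h1 : 0 < Nat.card G := Nat.card_pos
    have h2 : Nat.card G - 1 + 1 = Nat.card G := by omega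
    rw [h2]
    exact ⟨(Finite.equivFin G).symm⟩
  let _ : Fintype G := Fintype.ofFinite G
  let _ : Fintype Ω := Fintype.ofFinite Ω
  choose dq P hdq hfin hFS hEV using fun ω : Ω => hEXF O K m (z ω) (H.z0 ω) (Nat.card G - 1)
  -- the norms
  obtain ⟨Nm, hNm⟩ : ∃ Nm : K → K, ∀ F, Nm F = ∏ g : G, ρ g F := ⟨_, fun F => rfl⟩
  have hNinv : ∀ (h : G) F, ρ h (Nm F) = Nm F := by
    intro h F
    rw [hNm, map_prod]
    refine Fintype.prod_equiv (Equiv.mulLeft h) _ _ fun g => ?_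
    rw [Equiv.coe_mulLeft, map_mul, AlgEquiv.mul_apply]
  have hN0 : ∀ F, F ≠ 0 → Nm F ≠ 0 := by
    intro F hF
    rw [hNm]
    exact Finset.prod_ne_zero_iff.2 fun g _ h => hF ((map_eq_zero _).1 h)
  have hρFS : ∀ (g : G) (ω : Ω) (d : ℕ) (x : K), x ∈ FS O (z ω) d → ρ g x ∈ FS O (z ω) d := by
    intro g ω d x hx
    exact semi_FS (z ω) ((ρ g : K ≃ₐ[k] K) : K →+* K) (fun o => T g o) (fun o => H.com g o)
      (fun j => H.lin g ω j) d hx
  have hcard : 1 ≤ Fintype.card G := Fintype.card_pos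
  have hNFS : ∀ (ω : Ω) (d : ℕ) (F : K), F ∈ FS O (z ω) d →
      Nm F ∈ FS O (z ω) (d * Fintype.card G) := by
    intro ω d F hF
    rw [hNm]
    have h1 := FS_prod (O := O) (z ω) (Finset.univ : Finset G) (fun g => ρ g F) (fun _ => d)
      (fun g _ => hρFS g ω d F hF)
    rwa [Finset.sum_const, Finset.card_univ, smul_eq_mul, mul_comm] at h1
  obtain ⟨d, hd⟩ : ∃ d : ℕ, d = ∏ ω, (dq ω * Fintype.card G) := ⟨_, rfl⟩
  have hd1 : 1 ≤ d := by
    rw [hd]
    exact Nat.one_le_iff_ne_zero.2 (Finset.prod_ne_zero_iff.2 fun q _ => by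
      have := hdq q
      exact Nat.mul_ne_zero (by omega) (by omega))
  obtain ⟨ex, hex⟩ : ∃ ex : Ω → ℕ, ∀ ω, (dq ω * Fintype.card G) * ex ω = d :=
    ⟨fun ω => d / (dq ω * Fintype.card G), fun ω =>
      Nat.mul_div_cancel' (hd ▸ Finset.dvd_prod_of_mem (fun ω => dq ω * Fintype.card G)
        (Finset.mem_univ ω))⟩
  let Fam : (Ω → K) → Ω → K := fun F ω => Nm (F ω) ^ ex ω
  refine ⟨d, Fam '' (Set.pi Set.univ fun ω => {F ∈ P ω | F ≠ 0}), hd1,
    (Set.Finite.pi fun ω => (hfin ω).subset (Set.sep_subset _ _)).image _, ?_, ?_⟩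
  · rintro _ ⟨F, hF, rfl⟩
    have hF1 : ∀ q, F q ∈ P q := fun q => (hF q (Set.mem_univ q)).1
    have hF0 : ∀ q, F q ≠ 0 := fun q => (hF q (Set.mem_univ q)).2
    refine ⟨fun ω => ?_, fun ω => ?_, fun g ω => ?_⟩
    · have h1 := FS_pow (z ω) (hNFS ω _ _ (hFS ω (F ω) (hF1 ω))) (ex ω)
      rwa [hex ω] at h1
    · exact pow_ne_zero _ (hN0 _ (hF0 ω))
    · change ρ g (Nm (F ω) ^ ex ω) = Nm (F ω) ^ ex ω
      rw [map_pow, hNinv]
  intro V hVk
  obtain ⟨V', hV'⟩ := ext_val (ι : Y →+* K) V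
  have hkV : ∀ c : k, algebraMap k K c ∈ V' := fun c => by
    have h1 : algebraMap k K c = (ι : Y →+* K) (algebraMap k Y c) := (ι.commutes c).symm
    rw [h1]
    exact (hV' _).2 (hVk c)
  have hOV : ∀ o : O, algebraMap O K o ∈ V' := fun o => by
    have := H.fin
    exact int_mem V' hkV ((Algebra.IsIntegral.isIntegral (R := k) o).algebraMap)
  choose F hF hF0 hx using fun ω : Ω => hEV ω
    (fun i => V'.comap ((ρ (e i) : K ≃ₐ[k] K) : K →+* K))
    (fun i c => by
      rw [ValuationSubring.mem_comap]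
      change ρ (e i) (algebraMap O K c) ∈ V'
      rw [H.com]
      exact hOV _)
  refine ⟨Fam F, ⟨F, fun ω _ => ⟨hF ω, hF0 ω⟩, rfl⟩, ?_⟩
  intro s hs hsV N 𝔔 e' W π hπ
  have hs0 : algebraMap k K s ≠ 0 := fun h => hs (H.injk (by rw [h, map_zero]))
  have hsV' : (algebraMap k K s)⁻¹ ∈ V' := by
    have h1 : (algebraMap k K s)⁻¹ = (ι : Y →+* K) ((algebraMap k Y s)⁻¹) := by
      rw [map_inv₀]
      exact congrArg _ (ι.commutes s).symm
    rw [h1]
    exact (hV' _).2 hsV
  -- the ratios of the forms are in all the conjugates of the valuation ring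
  have hgen1 : ∀ (g : G) (ω : Ω), ∀ y ∈ FS O (z ω) (dq ω), ρ g (y / F ω) ∈ V' := by
    intro g ω y hy
    unfold FS at hy
    induction hy using Submodule.span_induction with
    | mem x hx1 =>
      have h3 := hx ω (e.symm g) x hx1
      rw [e.apply_symm_apply] at h3
      exact h3
    | zero => rw [zero_div, map_zero]; exact V'.zero_mem
    | add x y _ _ hx hy => rw [add_div, map_add]; exact V'.add_mem _ _ hx hy
    | smul c x _ hx =>
      rw [Algebra.smul_def, mul_div_assoc, map_mul, H.com]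
      exact V'.mul_mem _ _ (hOV _) hx
  have hgen2 : ∀ (ω : Ω) (g : G), ∀ y ∈ MN (z ω) (dq ω), y / ρ g (F ω) ∈ V' := by
    intro ω g y hy
    have h1 := hgen1 g ω (ρ g⁻¹ y) (hρFS g⁻¹ ω _ y (Submodule.subset_span hy))
    have h2 : ρ g (ρ g⁻¹ y / F ω) = y / ρ g (F ω) := by
      rw [map_div₀, ← AlgEquiv.mul_apply, ← map_mul, mul_inv_cancel, map_one, AlgEquiv.one_apply]
    rwa [h2] at h1
  have hgen3 : ∀ (ω : Ω), ∀ y ∈ MN (z ω) (dq ω * Fintype.card G), y / Nm (F ω) ∈ V' := by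
    intro ω y hy
    rw [hNm]
    exact MN_div_prod (z ω) (dq ω) (fun g : G => ρ g (F ω)) V' (hgen2 ω) Finset.univ y
      (by rw [Finset.card_univ]; exact hy)
  have hgen : ∀ (ω : Ω), ∀ y ∈ MN (z ω) d, y / Fam F ω ∈ V' := by
    intro ω y hy
    exact MN_div_pow (z ω) (dq ω * Fintype.card G) (Nm (F ω)) V' (hgen3 ω) (ex ω) y
      (by rw [hex]; exact hy)
  have hOL : ∀ (r : OL O (K := K) s), (r : K) ∈ V' := by
    rintro ⟨r, n, y, h⟩
    change r ∈ V'
    have h2 : r = ((algebraMap k K s)⁻¹) ^ n * algebraMap O K y := by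
      rw [← h, ← mul_assoc, ← mul_pow, inv_mul_cancel₀ hs0, one_pow, one_mul]
    rw [h2]
    exact V'.mul_mem _ _ (pow_mem hsV' n) (hOV _)
  let W' : Subalgebra (OL O (K := K) s) K :=
    { carrier := {x | x ∈ V'}
      mul_mem' := fun {a b} ha hb => V'.mul_mem _ _ ha hb
      add_mem' := fun {a b} ha hb => V'.add_mem _ _ ha hb
      algebraMap_mem' := fun r => hOL r }
  have hCW : CG (OL O (K := K) s) z d (Fam F) ≤ W' := by
    unfold CG
    refine iSup_le fun ω => ?_
    unfold AF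
    rw [Algebra.adjoin_le_iff]
    rintro y ⟨x', hx', rfl⟩
    exact hgen ω x' hx'
  obtain ⟨V₂', hU1, hU2, hU3, hU4⟩ := ext_unit ε HE.eK.inj V' π hπ
  have hkV2 : ∀ c : k, algebraMap k K₂ c ∈ V₂' := by
    intro c
    have h1 : algebraMap k K₂ c = ε (hm 0 (algebraMap k K c)) := by
      rw [← algebraMap_LP, ε.commutes]
    rw [h1]
    exact hU1 _ (hkV c)
  refine ⟨V₂'.comap (ι₂ : Y₂ →+* K₂), ?_, ?_, ?_⟩
  · intro c
    rw [ValuationSubring.mem_comap]
    change ι₂ (algebraMap k Y₂ c) ∈ V₂'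
    rw [ι₂.commutes]
    exact hkV2 c
  · intro x hmx
    rw [ValuationSubring.mem_comap]
    change ι₂ x ∈ V₂'
    have h1 : hm 0 (ι₂ x) ∈ GRW O ε z s 𝔔 e' W π d (Fam F) := by
      have h2 : AddMonoidAlgebra.mapAlgHom (R := k) ℤ ι₂ (hm 0 x) ∈
        GRW O ε z s 𝔔 e' W π d (Fam F) := hmx
      have h3 : AddMonoidAlgebra.mapAlgHom (R := k) ℤ ι₂ (hm 0 x) = hm 0 (ι₂ x) :=
        AddMonoidAlgebra.mapAlgHom_single _ _ _
      rwa [h3] at h2
    have h2 := R2_coeff ε (RX k (CG (OL O (K := K) s) z d (Fam F))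
      (fun i => RW k (𝔔 i) (e' i) (W i) z d (Fam F))) π V₂' hkV2 (by
      intro d' a ha
      have h3 : hm d' a ∈ RR k 1 1 (⊤ : Ideal (OL O (K := K) s)) 0
          (CG (OL O (K := K) s) z d (Fam F)) := ha.1
      have h4 : a ∈ CG (OL O (K := K) s) z d (Fam F) := RR_mem_C (fun c hc => hc) h3
      exact hU1 a (hCW h4)) hU3 hU4 h1 0
    rwa [coeff_hm_same] at h2
  · intro x hx2
    rw [ValuationSubring.mem_comap] at hx2
    change ι₂ (εY (hm 0 x)) ∈ V₂' at hx2
    rw [HE.com] at hx2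
    exact (hV' x).1 (hU2 _ hx2)

end Pool.Agent.Y794.H
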